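import Pool.Agent.H27.QB.Main

set_option autoImplicit false

/-!
# Locally indicable groups have an independent basis of quasi-identities

Full answer (yes) to the second question: in the class of torsion-free groups the class of
locally indicable groups is defined by an independent set of quasi-identities.
-/

namespace Pool.Agent.Results.MP_b18726_al.LocallyIndicableBasis

open Pool.Agent.H27.QB

universe u

/-- There is a set of quasi-identities which defines the class of locally indicable groups in the
class of torsion-free groups and is independent in the class of torsion-free groups. -/
theorem result : ∃ S : Set QuasiIdentity,
    DefinesAmongTorsionFree.{u} S (fun G _ => LocallyIndicable G) ∧
      IndependentAmongTorsionFree.{u} S :=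
  locallyIndicable_basis

end Pool.Agent.Results.MP_b18726_al.LocallyIndicableBasis
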